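import Pool.Agent.H79.PG8

set_option autoImplicit false

namespace Pool.Agent.Results.MP_956d6c_ag.Classification

open Pool.Agent.H79 Pool.Agent.H79.PGDefs

/-- Classification of the rational projective flows in dimension `k = n + 2`. -/
theorem result (n : ℕ) :
    (∀ φ : Fin (n + 2) → Rf (n + 2), IsFlow φ ↔
      φ = x ∨ ∃ N L T ψ, Adm L T ∧ Model N L T ψ ∧ Conj φ ψ) ∧
    (∀ (N : ℕ) (L : IntermediateField ℂ (Rf (n + 2))) (T : Rf (n + 2)), Adm L T →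
      (∃! ψ, Model N L T ψ) ∧ ∀ ψ, Model N L T ψ → ¬Conj x ψ) ∧
    (∀ (N N' : ℕ) (L L' : IntermediateField ℂ (Rf (n + 2))) (T T' : Rf (n + 2))
      (ψ ψ' : Fin (n + 2) → Rf (n + 2)), Adm L T → Model N L T ψ → Adm L' T' →
      Model N' L' T' ψ' → (Conj ψ ψ' ↔ N = N' ∧ (N = 0 ∨ Nonempty (L ≃ₐ[ℂ] L')))) ∧
    (∀ (F : Type) [Field F] [Algebra ℂ F],
      (∃ (L : IntermediateField ℂ (Rf (n + 2))) (T : Rf (n + 2)),
        Adm L T ∧ Nonempty (L ≃ₐ[ℂ] F)) ↔ Nonempty (RatFunc F ≃ₐ[ℂ] Rf (n + 1))) ∧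
    (Adm (L0 n) (x 0 / w n) ∧ ∀ N, Model N (L0 n) (x 0 / w n) (psi n N)) ∧
    ((∀ φ : Fin (n + 2) → Rf (n + 2), IsFlow φ → φ = x ∨ ∃ N, Conj φ (psi n N)) ↔
      ∀ (L : IntermediateField ℂ (Rf (n + 2))) T, Adm L T → Nonempty (L ≃ₐ[ℂ] L0 n)) ∧
    ∀ φ : Fin 3 → Rf 3, IsFlow φ → φ = x ∨ ∃ N, Conj φ (psi 1 N) :=
  ⟨PG8.part1, fun N _ _ h => ⟨PG8.part2 N h, fun _ m => PG8.part4 m⟩,
    fun _ _ _ _ _ _ _ _ => PG8.part3, PG8.part8, ⟨PG8.part5, PG8.part6⟩, PG8.part7,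
    (PG8.part7 (n := 1)).mpr fun _ _ h => PG7.three h⟩

end Pool.Agent.Results.MP_956d6c_ag.Classification
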